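import Mathlib
import Pool.Agent.Results.MP_4e951d_mp.SpanDimension

/-!
General lemmas on the powers of a matrix space whose top power but one is traceless.
-/

namespace Pool.Agent.H979N

open Matrix
open Pool.Agent.Results.MP_8bfff4_mp.ExactValue

variable {D : ℕ} {W : Submodule ℂ (Matrix (Fin D) (Fin D) ℂ)}

lemma grow_many (hD : 2 ≤ D) {Y : Matrix (Fin D) (Fin D) ℂ} (hY : Y ∈ W) (hYu : IsUnit Y)
    {N : ℕ} (hN : W ^ N = ⊤) (hmin : ∀ i, i < N → W ^ i ≠ ⊤) (n k : ℕ) (hn : n + k ≤ N) :
    fr (W ^ n) + k ≤ fr (W ^ (n + k)) := by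
  induction k with
  | zero => simp
  | succ k ih =>
    have h1 := ih (by omega)
    by_contra hcon
    push Not at hcon
    exact hmin (n + k) (by omega) (strict_growth hD (full_of_top hN) hY hYu
      (by rw [← add_assoc] at hcon; omega))

lemma pairing {a b : ℕ} (htr : ∀ M ∈ W ^ (a + b), M.trace = 0) :
    fr (W ^ a) + fr (W ^ b) ≤ D * D := by
  classical
  let φ : Matrix (Fin D) (Fin D) ℂ →ₗ[ℂ] Module.Dual ℂ (Matrix (Fin D) (Fin D) ℂ) :=
    LinearMap.mk₂ ℂ (fun A B => (A * B).trace) (by intro x y z; simp [add_mul])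
      (by intro c x y; simp) (by intro x y z; simp [mul_add]) (by intro c x y; simp)
  have hφ : ∀ A B, φ A B = (A * B).trace := fun A B => rfl
  have hinj : Function.Injective φ := by
    intro A B h
    rw [Matrix.ext_iff_trace_mul_right]
    intro x
    rw [← hφ, ← hφ, h]
  have h1 : (W ^ a).map φ ≤ (W ^ b).dualAnnihilator := by
    rintro _ ⟨A, hA, rfl⟩
    rw [Submodule.mem_dualAnnihilator]
    intro B hB
    rw [hφ]
    apply htr
    rw [pow_add]
    exact Submodule.mul_mem_mul hA hB
  have h2 := Submodule.finrank_mono h1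
  have h3 : Module.finrank ℂ ((W ^ a).map φ) = fr (W ^ a) :=
    (Submodule.equivMapOfInjective φ hinj (W ^ a)).finrank_eq.symm
  have h4 := Subspace.finrank_add_finrank_dualAnnihilator_eq (W ^ b)
  have h5 : Module.finrank ℂ (Matrix (Fin D) (Fin D) ℂ) = D * D := by
    rw [Module.finrank_matrix]; simp
  unfold fr at *
  omega

end Pool.Agent.H979N
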