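import Mathlib
import Pool.Agent.Results.MP_4e951d_mp.SpanDimension

/-!
Rank lemmas for right ideals of matrices.
-/

namespace Pool.Agent.H979N

open Matrix
open Pool.Agent.Results.MP_8bfff4_mp.ExactValue

variable {D : ℕ} {W : Submodule ℂ (Matrix (Fin D) (Fin D) ℂ)}

/-- the right ideal of `B` has dimension at most `D * rank B` -/
lemma fr_ideal_le (B : Matrix (Fin D) (Fin D) ℂ) :
    fr (ln B * (⊤ : Submodule ℂ (Matrix (Fin D) (Fin D) ℂ))) ≤ D * B.rank := by
  classical
  let R := LinearMap.range B.mulVecLin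
  let ψ : (Fin D → R) →ₗ[ℂ] Matrix (Fin D) (Fin D) ℂ :=
    { toFun := fun c => Matrix.of fun i j => (c j : Fin D → ℂ) i
      map_add' := by intro x y; ext i j; rfl
      map_smul' := by intro x y; ext i j; rfl }
  have h1 : ln B * (⊤ : Submodule ℂ (Matrix (Fin D) (Fin D) ℂ)) ≤ LinearMap.range ψ := by
    intro M hM
    rw [mem_ln_mul] at hM
    obtain ⟨C, -, rfl⟩ := hM
    refine ⟨fun j => ⟨B *ᵥ (fun i => C i j), ⟨fun i => C i j, rfl⟩⟩, ?_⟩
    ext i j
    rfl
  have h2 := fr_mono h1
  have h3 : fr (LinearMap.range ψ) ≤ Module.finrank ℂ (Fin D → R) := LinearMap.finrank_range_le ψ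
  have h4 : Module.finrank ℂ (Fin D → R) = D * B.rank := by
    rw [Module.finrank_pi_fintype]
    simp [R, Matrix.rank]
  omega

lemma rank_sq (A : Matrix (Fin D) (Fin D) ℂ) (B : Matrix (Fin D) (Fin D) ℂ) :
    A.rank + B.rank ≤ (A * B).rank + D := by
  classical
  set f := A.mulVecLin with hf
  set S := LinearMap.range B.mulVecLin with hS
  have h1 := LinearMap.finrank_range_add_finrank_ker (f.domRestrict S)
  have h2 : LinearMap.range (f.domRestrict S) = LinearMap.range (A * B).mulVecLin := by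
    rw [Matrix.mulVecLin_mul, LinearMap.range_comp, LinearMap.range_domRestrict]
  have h3 : (LinearMap.ker (f.domRestrict S)).map S.subtype ≤ LinearMap.ker f := by
    rintro _ ⟨x, hx, rfl⟩
    exact hx
  have h4 := Submodule.finrank_mono h3
  rw [Submodule.finrank_map_subtype_eq] at h4
  have h5 := LinearMap.finrank_range_add_finrank_ker f
  have h6 : Module.finrank ℂ (Fin D → ℂ) = D := by simp
  rw [h2] at h1
  rw [h6] at h5
  show Module.finrank ℂ (LinearMap.range f) + Module.finrank ℂ S
    ≤ Module.finrank ℂ (LinearMap.range (A * B).mulVecLin) + D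
  omega

/-- **rank sum**: if the last power short of everything is traceless of codimension one, then two
matrices spanning `W` have ranks of sum larger than `D` -/
lemma rank_sum {K : ℕ} (htr : ∀ M ∈ W ^ (K + 1), M.trace = 0)
    (hfr : D * D ≤ fr (W ^ (K + 1)) + 1)
    {v w : Matrix (Fin D) (Fin D) ℂ} (hv : v ∈ W) (hw : w ∈ W) (hv0 : v ≠ 0) (hw0 : w ≠ 0)
    (hW : W ≤ Submodule.span ℂ {v, w}) : D + 1 ≤ v.rank + w.rank := by
  have hlt : ∀ u ∈ W, u ≠ 0 → fr (ln u * W ^ K) + 1 ≤ D * u.rank := by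
    intro u hu hu0
    have h1 : ln u * W ^ K ≤ ln u * ⊤ := mul_le_mul' le_rfl le_top
    have h2 : ln u * W ^ K ≠ ln u * ⊤ := by
      intro heq
      apply hu0
      rw [Matrix.ext_iff_trace_mul_right]
      intro x
      rw [zero_mul, Matrix.trace_zero]
      apply htr
      have h3 : u * x ∈ ln u * W ^ K := by
        rw [heq, mem_ln_mul]
        exact ⟨x, trivial, rfl⟩
      rw [pow_succ']
      exact mul_le_mul' (ln_le.2 hu) le_rfl h3
    have h3 := Submodule.finrank_lt_finrank_of_lt (lt_of_le_of_ne h1 h2)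
    have h4 := fr_ideal_le u
    unfold fr at *
    omega
  have h1 : W ^ (K + 1) ≤ ln v * W ^ K ⊔ ln w * W ^ K := by
    rw [pow_succ', ← Submodule.sup_mul]
    apply mul_le_mul' _ le_rfl
    have : Submodule.span ℂ {v, w} = ln v ⊔ ln w := by
      unfold ln
      rw [← Submodule.span_union]
      rfl
    rw [← this]
    exact hW
  have h2 := fr_mono h1
  have h3 := Submodule.finrank_add_le_finrank_add_finrank (ln v * W ^ K) (ln w * W ^ K)
  have h4 := hlt v hv hv0
  have h5 := hlt w hw hw0
  have h6 : D * D < D * (v.rank + w.rank) := by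
    rw [mul_add]
    unfold fr at *
    omega
  have := Nat.lt_of_mul_lt_mul_left h6
  omega

/-- `N ^ 3 = 0` in dimension four has rank at most two -/
lemma rank_cube {N : Matrix (Fin 4) (Fin 4) ℂ} (h : N * N * N = 0) : N.rank ≤ 2 := by
  have h1 := rank_sq N N
  have h2 := Matrix.rank_add_rank_le_card_of_mul_eq_zero h
  simp only [Fintype.card_fin] at h2
  omega

/-- a matrix of rank at most one is a product of a column and a row -/
lemma vecMulVec_of_rank {B : Matrix (Fin D) (Fin D) ℂ} (h : B.rank ≤ 1) :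
    ∃ u η : Fin D → ℂ, B = vecMulVec u η := by
  obtain ⟨u, hu⟩ := (finrank_le_one_iff (K := ℂ) (V := LinearMap.range B.mulVecLin)).1 h
  choose c hc using fun j : Fin D => hu ⟨B *ᵥ (Pi.single j 1), ⟨Pi.single j 1, rfl⟩⟩
  refine ⟨u, c, ?_⟩
  ext i j
  have h1 := congrArg (fun z : LinearMap.range B.mulVecLin => (z : Fin D → ℂ) i) (hc j)
  simp only [Matrix.mulVec_single_one] at h1
  rw [Matrix.vecMulVec_apply, mul_comm]
  exact h1.symm

end Pool.Agent.H979N
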