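import Mathlib
import Pool.Agent.Results.MP_4e951d_mp.SpanDimension

/-!
A quadratic relation in a two dimensional matrix space.
-/

namespace Pool.Agent.H979N

open Matrix
open Pool.Agent.Results.MP_8bfff4_mp.ExactValue

variable {D : ℕ} {W : Submodule ℂ (Matrix (Fin D) (Fin D) ℂ)}

/-- three is too small for four products -/
lemma exists_relation {X Y : Matrix (Fin D) (Fin D) ℂ} (hX : X ∈ W) (hY : Y ∈ W)
    (h3 : fr (W ^ 2) ≤ 3) : ∃ a b c d : ℂ, (a ≠ 0 ∨ b ≠ 0 ∨ c ≠ 0 ∨ d ≠ 0) ∧
      a • (X * X) + b • (X * Y) + c • (Y * X) + d • (Y * Y) = 0 := by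
  classical
  let v : Fin 4 → Matrix (Fin D) (Fin D) ℂ := ![X * X, X * Y, Y * X, Y * Y]
  have hv : ¬ LinearIndependent ℂ v := by
    intro hli
    have h1 := finrank_span_eq_card hli
    have h2 : Submodule.span ℂ (Set.range v) ≤ W ^ 2 := by
      rw [Submodule.span_le]
      rintro _ ⟨i, rfl⟩
      rw [pow_two]
      fin_cases i
      · exact Submodule.mul_mem_mul hX hX
      · exact Submodule.mul_mem_mul hX hY
      · exact Submodule.mul_mem_mul hY hX
      · exact Submodule.mul_mem_mul hY hY
    have h4 := fr_mono h2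
    unfold fr at *
    rw [h1] at h4
    simp only [Fintype.card_fin] at h4
    omega
  obtain ⟨g, hg, i, hi⟩ := Fintype.not_linearIndependent_iff.1 hv
  refine ⟨g 0, g 1, g 2, g 3, ?_, ?_⟩
  · fin_cases i
    · exact Or.inl hi
    · exact Or.inr (Or.inl hi)
    · exact Or.inr (Or.inr (Or.inl hi))
    · exact Or.inr (Or.inr (Or.inr hi))
  · rw [Fin.sum_univ_four] at hg
    exact hg

/-- type (i) relation, in a basis `P, Q` -/
def TypeI (W : Submodule ℂ (Matrix (Fin D) (Fin D) ℂ)) : Prop :=
  ∃ P ∈ W, ∃ Q ∈ W, W ≤ Submodule.span ℂ {P, Q} ∧ ∃ α β : ℂ, Q * P = α • (P * P) + β • (P * Q)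

lemma quad_root (a b c : ℂ) (ha : a ≠ 0) : ∃ x : ℂ, a * (x * x) + b * x + c = 0 := by
  obtain ⟨s, hs⟩ := IsAlgClosed.exists_pow_nat_eq (discrim a b c) (n := 2) (by norm_num)
  exact exists_quadratic_eq_zero ha ⟨s, by rw [← hs]; ring⟩

/-- the dichotomy -/
lemma dichotomy {X Y : Matrix (Fin D) (Fin D) ℂ} (hX : X ∈ W) (hY : Y ∈ W)
    (hW : W ≤ Submodule.span ℂ {X, Y}) (hli : ∀ s t : ℂ, s • X + t • Y = 0 → s = 0 ∧ t = 0)
    (h3 : fr (W ^ 2) ≤ 3) :
    TypeI W ∨ ∃ B ∈ W, B ≠ 0 ∧ B * B = 0 := by
  obtain ⟨a, b, c, d, hne, hrel⟩ := exists_relation hX hY h3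
  -- a product of two members which vanishes
  have hprod : ∀ P ∈ W, ∀ R ∈ W, P ≠ 0 → R ≠ 0 → P * R = 0 → 
      (TypeI W ∨ ∃ B ∈ W, B ≠ 0 ∧ B * B = 0) := by
    intro P hP R hR hP0 hR0 hPR
    by_cases hsp : ∃ s : ℂ, R = s • P
    · obtain ⟨s, rfl⟩ := hsp
      right
      refine ⟨P, hP, hP0, ?_⟩
      rw [mul_smul_comm, smul_eq_zero] at hPR
      rcases hPR with h | h
      · exfalso; apply hR0; rw [h, zero_smul]
      · exact h
    · left
      refine ⟨R, hR, P, hP, ?_, 0, 0, by rw [hPR]; simp⟩
      -- R, P span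
      obtain ⟨p, q, hpq⟩ := Submodule.mem_span_pair.1 (hW hP)
      obtain ⟨r, s, hrs⟩ := Submodule.mem_span_pair.1 (hW hR)
      have hdet : p * s - q * r ≠ 0 := by
        intro hdet
        by_cases hp : p = 0
        · have hq : q ≠ 0 := by
            rintro rfl
            apply hP0; rw [← hpq, hp]; simp
          have hr : r = 0 := by
            rw [hp, zero_mul, zero_sub, neg_eq_zero] at hdet
            exact (mul_eq_zero.1 hdet).resolve_left hq
          apply hsp
          refine ⟨s / q, ?_⟩
          rw [← hrs, ← hpq, hr, hp]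
          simp only [zero_smul, zero_add, smul_smul]
          rw [div_mul_cancel₀ _ hq]
        · apply hsp
          refine ⟨r / p, ?_⟩
          rw [← hrs, ← hpq, smul_add, smul_smul, smul_smul, div_mul_cancel₀ _ hp]
          congr 2
          field_simp
          linear_combination hdet
      have hXs : X ∈ Submodule.span ℂ {R, P} := by
        rw [Submodule.mem_span_pair]
        refine ⟨-q / (p * s - q * r), s / (p * s - q * r), ?_⟩
        rw [← hpq, ← hrs]
        match_scalars
        · field_simp
          ring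
        · field_simp
          ring
      have hYs : Y ∈ Submodule.span ℂ {R, P} := by
        rw [Submodule.mem_span_pair]
        refine ⟨p / (p * s - q * r), -r / (p * s - q * r), ?_⟩
        rw [← hpq, ← hrs]
        match_scalars
        · field_simp
          ring
        · field_simp
          ring
      refine hW.trans ?_
      rw [Submodule.span_le]
      rintro z hz
      rcases hz with rfl | rfl
      · exact hXs
      · exact hYs
  by_cases hd : d = 0
  · subst hd
    rw [zero_smul, add_zero] at hrel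
    by_cases hc : c = 0
    · subst hc
      rw [zero_smul, add_zero] at hrel
      -- X (aX + bY) = 0
      apply hprod X hX (a • X + b • Y) (W.add_mem (W.smul_mem _ hX) (W.smul_mem _ hY))
      · rintro rfl
        exact one_ne_zero (hli 1 0 (by simp)).1
      · intro h
        obtain ⟨h1, h2⟩ := hli a b h
        simp [h1, h2] at hne
      · rw [mul_add, mul_smul_comm, mul_smul_comm]; exact hrel
    · left
      refine ⟨X, hX, Y, hY, hW, -a / c, -b / c, ?_⟩
      have e : Y * X = c⁻¹ • (c • (Y * X)) := by rw [smul_smul, inv_mul_cancel₀ hc, one_smul]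
      have e2 : c • (Y * X) = -(a • (X * X) + b • (X * Y)) := by
        rw [eq_neg_iff_add_eq_zero, ← hrel]; abel
      rw [e, e2, smul_neg, smul_add, smul_smul, smul_smul, neg_div, neg_div, neg_smul, neg_smul,
        div_eq_inv_mul, div_eq_inv_mul]
      abel
  · obtain ⟨t, ht⟩ := quad_root d (b + c) a hd
    -- P = tX - Y
    obtain ⟨P, hPdef⟩ : ∃ P, P = t • X - Y := ⟨_, rfl⟩
    have hP : P ∈ W := by rw [hPdef]; exact W.sub_mem (W.smul_mem _ hX) hY
    have hYP : Y = t • X - P := by rw [hPdef]; abel
    have hP0 : P ≠ 0 := by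
      intro h
      have := (hli t (-1) (by rw [neg_smul, one_smul, ← sub_eq_add_neg, ← hPdef]; exact h)).2
      norm_num at this
    have hrel2 : (b + d * t) • (X * P) = -((c + d * t) • (P * X)) + d • (P * P) := by
      have e : a • (X * X) + b • (X * Y) + c • (Y * X) + d • (Y * Y) =
        (d * (t * t) + (b + c) * t + a) • (X * X) - (b + d * t) • (X * P) - (c + d * t) • (P * X)
          + d • (P * P) := by
        rw [hYP]
        simp only [mul_sub, sub_mul, mul_smul_comm, smul_mul_assoc]
        module
      rw [e, ht, zero_smul, zero_sub] at hrel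
      have e3 : (b + d * t) • (X * P) - (-((c + d * t) • (P * X)) + d • (P * P)) =
        -(-((b + d * t) • (X * P)) - (c + d * t) • (P * X) + d • (P * P)) := by abel
      rw [← sub_eq_zero, e3, hrel, neg_zero]
    by_cases hbt : b + d * t = 0
    · rw [hbt, zero_smul] at hrel2
      apply hprod P hP (-(c + d * t) • X + d • P) (W.add_mem (W.smul_mem _ hX) (W.smul_mem _ hP)) hP0
      · intro h
        have h1 : (-(c + d * t) + d * t) • X + (-d) • Y = 0 := by
          rw [← h, hPdef]
          simp only [smul_sub, add_smul, neg_smul, smul_smul]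
          abel
        have := (hli _ _ h1).2
        exact hd (neg_eq_zero.1 this)
      · rw [mul_add, mul_smul_comm, mul_smul_comm, neg_smul]
        exact hrel2.symm
    · left
      refine ⟨P, hP, X, hX, ?_, d / (b + d * t), -(c + d * t) / (b + d * t), ?_⟩
      · refine hW.trans ?_
        rw [Submodule.span_le]
        rintro z hz
        rcases hz with rfl | rfl
        · exact Submodule.subset_span (by simp)
        · rw [SetLike.mem_coe, hYP]
          exact Submodule.sub_mem _ (Submodule.smul_mem _ _ (Submodule.subset_span (by simp)))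
            (Submodule.subset_span (by simp))
      · have e : X * P = (b + d * t)⁻¹ • ((b + d * t) • (X * P)) := by
          rw [smul_smul, inv_mul_cancel₀ hbt, one_smul]
        rw [e, hrel2, smul_add, smul_neg, smul_smul, smul_smul, neg_div, neg_smul, div_eq_inv_mul,
          div_eq_inv_mul, add_comm]

end Pool.Agent.H979N
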