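import Mathlib
import Pool.Agent.H979N.IdxC
import Pool.Agent.H979N.IdxA

/-!
Type (i) relations are impossible for `D = 3` and `D = 4`.
-/

namespace Pool.Agent.H979N

open Matrix
open Pool.Agent.Results.MP_8bfff4_mp.ExactValue
open Pool.Agent.H780W

variable {D : ℕ} {W : Submodule ℂ (Matrix (Fin D) (Fin D) ℂ)}

lemma fr_pow_zero : fr (W ^ 0) ≤ 1 := by
  rw [pow_zero, ← ln_one]
  unfold fr ln
  exact (finrank_span_le_card _).trans (by simp)

lemma span_pair_eq (P Q : Matrix (Fin D) (Fin D) ℂ) : Submodule.span ℂ {P, Q} = ln P ⊔ ln Q := by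
  unfold ln
  rw [← Submodule.span_union]
  rfl

lemma fr_ln_le (P : Matrix (Fin D) (Fin D) ℂ) : fr (ln P) ≤ 1 := by
  unfold fr ln
  exact (finrank_span_le_card _).trans (by simp)

lemma fr_sup_le (U V : Submodule ℂ (Matrix (Fin D) (Fin D) ℂ)) : fr (U ⊔ V) ≤ fr U + fr V :=
  Submodule.finrank_add_le_finrank_add_finrank U V

/-- the count for type (i) -/
lemma typeI_count (h : TypeI W) (n : ℕ) : fr (W ^ n) ≤ n + 1 := by
  obtain ⟨P, hP, Q, hQ, hW, α, β, hQP⟩ := h
  rw [span_pair_eq] at hW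
  have h1 : ∀ n, W ^ (n + 1) ≤ ln P * W ^ n ⊔ ln (Q ^ (n + 1)) := by
    intro n
    induction n with
    | zero =>
      rw [pow_zero, mul_one, zero_add, pow_one, pow_one]; exact hW
    | succ n ih =>
      calc W ^ (n + 1 + 1) = W * W ^ (n + 1) := pow_succ' _ _
        _ ≤ (ln P ⊔ ln Q) * W ^ (n + 1) := mul_le_mul' hW le_rfl
        _ = ln P * W ^ (n + 1) ⊔ ln Q * W ^ (n + 1) := Submodule.sup_mul _ _ _
        _ ≤ _ := by
          apply sup_le le_sup_left
          refine (mul_le_mul' le_rfl ih).trans ?_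
          rw [Submodule.mul_sup, ln_mul_ln, ← pow_succ', ← mul_assoc, ln_mul_ln]
          apply sup_le _ le_sup_right
          refine le_trans ?_ le_sup_left
          have h2 : ln (Q * P) ≤ ln P * W := by
            rw [ln_le, mem_ln_mul]
            refine ⟨α • P + β • Q, W.add_mem (W.smul_mem _ hP) (W.smul_mem _ hQ), ?_⟩
            rw [hQP, mul_add, mul_smul_comm, mul_smul_comm]
          calc ln (Q * P) * W ^ n ≤ (ln P * W) * W ^ n := mul_le_mul' h2 le_rfl
            _ = ln P * W ^ (n + 1) := by rw [mul_assoc, ← pow_succ']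
  induction n with
  | zero => exact fr_pow_zero
  | succ n ih =>
    have h2 := fr_mono (h1 n)
    have h3 := fr_sup_le (ln P * W ^ n) (ln (Q ^ (n + 1)))
    have h4 := fr_ln_mul_le (W ^ n) P
    have h5 := fr_ln_le (Q ^ (n + 1))
    omega

/-- the left kernel of a member which almost commutes with a spanning pair vanishes -/
lemma isUnit_of_stable {N : ℕ} (hN : W ^ N = ⊤) {P : Matrix (Fin D) (Fin D) ℂ} (hP0 : P ≠ 0)
    (h : ∀ A ∈ W, ∃ B, A * P = P * B) : IsUnit P := by
  classical
  let R : Submodule ℂ (Fin D → ℂ) := LinearMap.ker P.vecMulLinear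
  have hmem : ∀ η, η ∈ R ↔ η ᵥ* P = 0 := fun η => by
    rw [LinearMap.mem_ker, Matrix.vecMulLinear_apply]
  by_contra hu
  have hR : R ≠ ⊥ := by
    intro hbot
    apply hu
    rw [← Matrix.vecMul_injective_iff_isUnit]
    intro x y hxy
    rw [← sub_eq_zero, ← Submodule.mem_bot ℂ, ← hbot, hmem, Matrix.sub_vecMul]
    exact sub_eq_zero.2 hxy
  have hT : R = ⊤ := by
    apply stable_top hN hR
    intro η hη A hA
    obtain ⟨B, hB⟩ := h A hA
    rw [hmem] at hη ⊢
    rw [Matrix.vecMul_vecMul, hB, ← Matrix.vecMul_vecMul, hη, Matrix.zero_vecMul]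
  apply hP0
  ext i j
  have h1 : (Pi.single i 1 : Fin D → ℂ) ∈ R := by rw [hT]; trivial
  rw [hmem] at h1
  have h2 := congrFun h1 j
  rw [Matrix.single_one_vecMul] at h2
  exact h2

/-- commuting with a spanning pair means scalar -/
lemma scalar_of_comm {N : ℕ} (hN : W ^ N = ⊤) {U : Matrix (Fin D) (Fin D) ℂ}
    (hU : ∀ w ∈ W, U * w = w * U) : ∃ c : ℂ, U = c • (1 : Matrix (Fin D) (Fin D) ℂ) := by
  have h1 : ∀ n, ∀ w ∈ W ^ n, U * w = w * U := by
    intro n
    induction n with
    | zero =>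
      intro w hw
      rw [pow_zero, Submodule.mem_one] at hw
      obtain ⟨a, rfl⟩ := hw
      exact (Algebra.commutes a U).symm
    | succ n ih =>
      intro w hw
      rw [pow_succ] at hw
      refine Submodule.mul_induction_on hw ?_ ?_
      · intro x hx y hy
        rw [← mul_assoc, ih x hx, mul_assoc, hU y hy, mul_assoc]
      · intro x y hx hy
        rw [mul_add, add_mul, hx, hy]
  have h2 : ∀ w, U * w = w * U := fun w => h1 N w (by rw [hN]; trivial)
  have h3 : U ∈ Set.range (Matrix.scalar (Fin D)) := by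
    rw [Matrix.mem_range_scalar_iff_commute_single']
    intro i j
    exact (h2 _).symm
  obtain ⟨c, rfl⟩ := h3
  exact ⟨c, by ext i j; simp [Matrix.diagonal, Matrix.one_apply]⟩

end Pool.Agent.H979N
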