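import Mathlib
import Pool.Agent.H979N.IdxD

/-!
Type (i) relations for `D = 3`.
-/

namespace Pool.Agent.H979N

open Matrix
open Pool.Agent.Results.MP_8bfff4_mp.ExactValue
open Pool.Agent.H780W

lemma indep_of_fr {D : ℕ} {W : Submodule ℂ (Matrix (Fin D) (Fin D) ℂ)}
    {P Q : Matrix (Fin D) (Fin D) ℂ} (h2 : 2 ≤ fr W) (hW : W ≤ Submodule.span ℂ {P, Q}) :
    ∀ s t : ℂ, s • P + t • Q = 0 → s = 0 ∧ t = 0 := by
  intro s t h
  rw [span_pair_eq] at hW
  constructor
  · by_contra hs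
    have h1 : P ∈ ln Q := by
      have : P = (-(t / s)) • Q := by
        have e : P = s⁻¹ • (s • P) := by rw [smul_smul, inv_mul_cancel₀ hs, one_smul]
        rw [e, eq_neg_of_add_eq_zero_left h, smul_neg, smul_smul, neg_smul, div_eq_inv_mul]
      rw [this]
      exact (ln Q).smul_mem _ (mem_ln_self Q)
    have h3 : W ≤ ln Q := hW.trans (sup_le (ln_le.2 h1) le_rfl)
    have h4 := fr_mono h3
    have h5 := fr_ln_le Q
    omega
  · by_contra ht
    have h1 : Q ∈ ln P := by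
      have : Q = (-(s / t)) • P := by
        have e : Q = t⁻¹ • (t • Q) := by rw [smul_smul, inv_mul_cancel₀ ht, one_smul]
        rw [e, eq_neg_of_add_eq_zero_right h, smul_neg, smul_smul, neg_smul, div_eq_inv_mul]
      rw [this]
      exact (ln P).smul_mem _ (mem_ln_self P)
    have h3 : W ≤ ln P := hW.trans (sup_le le_rfl (ln_le.2 h1))
    have h4 := fr_mono h3
    have h5 := fr_ln_le P
    omega

variable {W : Submodule ℂ (Matrix (Fin 3) (Fin 3) ℂ)}

lemma ln_smul_one_le (c : ℂ) : ln (c • (1 : Matrix (Fin 3) (Fin 3) ℂ)) ≤ ln 1 :=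
  ln_le.2 ((ln 1).smul_mem _ (mem_ln_self 1))

lemma typeI_three {N : ℕ} (hN : W ^ N = ⊤) (h2 : 2 ≤ fr W) (h : TypeI W) : fr (W ^ 3) ≤ 3 := by
  obtain ⟨P, hP, Q, hQ, hW, α, β, hQP⟩ := h
  have hli := indep_of_fr h2 hW
  have hP0 : P ≠ 0 := by
    rintro rfl
    exact one_ne_zero (hli 1 0 (by simp)).1
  have hdec : ∀ A ∈ W, ∃ p q : ℂ, A = p • P + q • Q := by
    intro A hA
    obtain ⟨p, q, hpq⟩ := Submodule.mem_span_pair.1 (hW hA)
    exact ⟨p, q, hpq.symm⟩
  have hPu : IsUnit P := by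
    apply isUnit_of_stable hN hP0
    intro A hA
    obtain ⟨p, q, rfl⟩ := hdec A hA
    refine ⟨p • P + q • (α • P + β • Q), ?_⟩
    rw [add_mul, mul_add, smul_mul_assoc, smul_mul_assoc, hQP, mul_smul_comm, mul_smul_comm,
      mul_add, mul_smul_comm, mul_smul_comm]
  by_cases hβ : β = 1
  · -- the Jordan plane
    exfalso
    subst hβ
    obtain ⟨u, hu⟩ := hPu
    set Pi : Matrix (Fin 3) (Fin 3) ℂ := ((u⁻¹ : (Matrix (Fin 3) (Fin 3) ℂ)ˣ) : Matrix (Fin 3) (Fin 3) ℂ) with hPi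
    have e1 : Pi * P = 1 := by rw [← hu]; exact Units.inv_mul u
    have e2 : P * Pi = 1 := by rw [← hu]; exact Units.mul_inv u
    have e3 : α • (1 : Matrix (Fin 3) (Fin 3) ℂ) = Pi * Q - Q * Pi := by
      have e4 : α • (P * P) = Q * P - P * Q := by rw [hQP, one_smul]; abel
      have e5 : Pi * (α • (P * P)) * Pi = α • (1 : Matrix (Fin 3) (Fin 3) ℂ) := by
        rw [mul_smul_comm, smul_mul_assoc, ← mul_assoc, e1, one_mul, e2]
      rw [← e5, e4, mul_sub, sub_mul, ← mul_assoc Pi P Q, e1, one_mul, mul_assoc Pi (Q * P) Pi,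
        mul_assoc Q P Pi, e2, mul_one]
    have e4 : α = 0 := by
      have := congrArg Matrix.trace e3
      rw [Matrix.trace_sub, Matrix.trace_mul_comm, sub_self, Matrix.trace_smul, Matrix.trace_one,
        Fintype.card_fin, smul_eq_mul] at this
      rcases mul_eq_zero.1 this with h | h
      · exact h
      · norm_num at h
    rw [e4, zero_smul, zero_add, one_smul] at hQP
    obtain ⟨c, hc⟩ := scalar_of_comm hN (U := Q) (by
      intro w hw
      obtain ⟨p, q, rfl⟩ := hdec w hw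
      rw [mul_add, add_mul, mul_smul_comm, mul_smul_comm, smul_mul_assoc, smul_mul_assoc, hQP])
    obtain ⟨c', hc'⟩ := scalar_of_comm hN (U := P) (by
      intro w hw
      obtain ⟨p, q, rfl⟩ := hdec w hw
      rw [mul_add, add_mul, mul_smul_comm, mul_smul_comm, smul_mul_assoc, smul_mul_assoc, hQP])
    have := (hli c (-c') (by
      rw [hc, hc', smul_smul, smul_smul, neg_mul, neg_smul, mul_comm c c', add_neg_cancel])).2
    apply hP0
    rw [hc', neg_eq_zero.1 this, zero_smul]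
  · have hβ1 : β - 1 ≠ 0 := sub_ne_zero.2 hβ
    obtain ⟨c, hc⟩ : ∃ c, c = α / (β - 1) := ⟨_, rfl⟩
    have hc2 : α + c = β * c := by rw [hc]; field_simp; ring
    obtain ⟨Q1, hQ1⟩ : ∃ Q1, Q1 = Q + c • P := ⟨_, rfl⟩
    have hQ1W : Q1 ∈ W := by rw [hQ1]; exact W.add_mem hQ (W.smul_mem _ hP)
    have hQeq : Q = Q1 - c • P := by rw [hQ1]; abel
    have hcom : Q1 * P = β • (P * Q1) := by
      rw [hQ1, add_mul, hQP, mul_add, smul_mul_assoc, mul_smul_comm, smul_add, smul_smul, ← hc2]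
      module
    have hQ10 : Q1 ≠ 0 := by
      intro h0
      rw [hQ1] at h0
      exact one_ne_zero (hli c 1 (by rw [one_smul, add_comm]; exact h0)).2
    have hdec1 : ∀ A ∈ W, ∃ p q : ℂ, A = p • P + q • Q1 := by
      intro A hA
      obtain ⟨p, q, rfl⟩ := hdec A hA
      refine ⟨p - q * c, q, ?_⟩
      rw [hQ1]
      module
    have hβ0 : β ≠ 0 := by
      rintro rfl
      rw [zero_smul] at hcom
      apply hQ10
      exact (hPu.mul_left_eq_zero).1 hcom
    have hQ1u : IsUnit Q1 := by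
      apply isUnit_of_stable hN hQ10
      intro A hA
      obtain ⟨p, q, rfl⟩ := hdec1 A hA
      refine ⟨(p * β⁻¹) • P + q • Q1, ?_⟩
      rw [add_mul, mul_add, smul_mul_assoc, smul_mul_assoc, mul_smul_comm, mul_smul_comm, hcom,
        smul_smul, mul_assoc, inv_mul_cancel₀ hβ0, mul_one]
    have hβ3 : β ^ 3 = 1 := by
      have h1 := congrArg Matrix.det hcom
      rw [Matrix.det_mul, Matrix.det_smul, Matrix.det_mul, Fintype.card_fin] at h1
      have h3 : P.det ≠ 0 := ((Matrix.isUnit_iff_isUnit_det _).1 hPu).ne_zero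
      have h4 : Q1.det ≠ 0 := ((Matrix.isUnit_iff_isUnit_det _).1 hQ1u).ne_zero
      have h5 : (β ^ 3 - 1) * (P.det * Q1.det) = 0 := by linear_combination -h1
      rcases mul_eq_zero.1 h5 with h | h
      · exact sub_eq_zero.1 h
      · exact absurd h (mul_ne_zero h3 h4)
    have hb3 : β * β * β = 1 := by rw [← hβ3]; ring
    have hb3' : β * (β * β) = 1 := by rw [← hβ3]; ring
    have c1 : ∀ Z, Q1 * (P * Z) = β • (P * (Q1 * Z)) := by
      intro Z
      rw [← mul_assoc, hcom, smul_mul_assoc, mul_assoc]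
    have hP3 : Q1 * (P * P * P) = (P * P * P) * Q1 := by
      simp only [mul_assoc, c1, hcom, mul_smul_comm, smul_smul]
      first
        | rw [hb3, one_smul]
        | rw [hb3', one_smul]
    have hQ3 : (Q1 * Q1 * Q1) * P = P * (Q1 * Q1 * Q1) := by
      simp only [mul_assoc, c1, hcom, mul_smul_comm, smul_smul]
      first
        | rw [hb3, one_smul]
        | rw [hb3', one_smul]
    obtain ⟨lam, hlam⟩ := scalar_of_comm hN (U := P * P * P) (by
      intro w hw
      obtain ⟨p, q, rfl⟩ := hdec1 w hw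
      rw [mul_add, add_mul, mul_smul_comm, mul_smul_comm, smul_mul_assoc, smul_mul_assoc, hP3]
      simp only [mul_assoc])
    obtain ⟨mu, hmu⟩ := scalar_of_comm hN (U := Q1 * Q1 * Q1) (by
      intro w hw
      obtain ⟨p, q, rfl⟩ := hdec1 w hw
      rw [mul_add, add_mul, mul_smul_comm, mul_smul_comm, smul_mul_assoc, smul_mul_assoc, hQ3]
      simp only [mul_assoc])
    have hW1 : W ≤ ln P ⊔ ln Q1 := by
      intro A hA
      obtain ⟨p, q, rfl⟩ := hdec1 A hA
      exact Submodule.add_mem _ (Submodule.mem_sup_left ((ln P).smul_mem _ (mem_ln_self P)))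
        (Submodule.mem_sup_right ((ln Q1).smul_mem _ (mem_ln_self Q1)))
    have hQP1 : ln (Q1 * P) ≤ ln (P * Q1) := by
      rw [hcom]; exact ln_le.2 ((ln _).smul_mem _ (mem_ln_self _))
    have hW2 : W ^ 2 ≤ ln (P * P) ⊔ ln (P * Q1) ⊔ ln (Q1 * Q1) := by
      rw [pow_two]
      refine (mul_le_mul' hW1 hW1).trans ?_
      rw [Submodule.sup_mul, Submodule.mul_sup, Submodule.mul_sup, ln_mul_ln, ln_mul_ln, ln_mul_ln,
        ln_mul_ln]
      refine sup_le (sup_le ?_ ?_) (sup_le ?_ ?_)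
      · exact le_sup_of_le_left le_sup_left
      · exact le_sup_of_le_left le_sup_right
      · exact le_sup_of_le_left (hQP1.trans le_sup_right)
      · exact le_sup_right
    have hW3 : W ^ 3 ≤ ln 1 ⊔ ln (P * P * Q1) ⊔ ln (P * Q1 * Q1) := by
      rw [pow_succ]
      refine (mul_le_mul' hW2 hW1).trans ?_
      simp only [Submodule.sup_mul, Submodule.mul_sup, ln_mul_ln]
      have a1 : ln (P * Q1 * P) ≤ ln (P * P * Q1) := by
        rw [mul_assoc, hcom, mul_smul_comm, ← mul_assoc]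
        exact ln_le.2 ((ln _).smul_mem _ (mem_ln_self _))
      have a2 : ln (Q1 * Q1 * P) ≤ ln (P * Q1 * Q1) := by
        have : Q1 * Q1 * P = (β * β) • (P * Q1 * Q1) := by
          rw [mul_assoc, hcom, mul_smul_comm, ← mul_assoc, hcom, smul_mul_assoc, smul_smul]
        rw [this]
        exact ln_le.2 ((ln _).smul_mem _ (mem_ln_self _))
      have a3 : ln (P * P * P) ≤ ln 1 := by rw [hlam]; exact ln_smul_one_le _
      have a4 : ln (Q1 * Q1 * Q1) ≤ ln 1 := by rw [hmu]; exact ln_smul_one_le _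
      have b1 : ln (1 : Matrix (Fin 3) (Fin 3) ℂ) ≤ ln 1 ⊔ ln (P * P * Q1) ⊔ ln (P * Q1 * Q1) :=
        le_sup_of_le_left le_sup_left
      have b2 : ln (P * P * Q1) ≤ ln 1 ⊔ ln (P * P * Q1) ⊔ ln (P * Q1 * Q1) :=
        le_sup_of_le_left le_sup_right
      have b3 : ln (P * Q1 * Q1) ≤ ln 1 ⊔ ln (P * P * Q1) ⊔ ln (P * Q1 * Q1) := le_sup_right
      simp only [sup_le_iff]
      refine ⟨⟨⟨?_, ?_⟩, ?_⟩, ⟨?_, ?_⟩, ?_⟩ <;>
        first
          | exact a3.trans b1
          | exact a1.trans b2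
          | exact a2.trans b3
          | exact a4.trans b1
          | exact b2
          | exact b3
    have h5 := fr_mono hW3
    have h6 := fr_sup_le (ln 1 ⊔ ln (P * P * Q1)) (ln (P * Q1 * Q1))
    have h7 := fr_sup_le (ln 1) (ln (P * P * Q1))
    have h8 := fr_ln_le (1 : Matrix (Fin 3) (Fin 3) ℂ)
    have h9 := fr_ln_le (P * P * Q1)
    have h10 := fr_ln_le (P * Q1 * Q1)
    omega

end Pool.Agent.H979N
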