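import Mathlib
import Pool.Agent.H979N.IdxB
import Pool.Agent.H979N.IdxD

/-!
The case `B * B = 0` for `D = 4`.
-/

namespace Pool.Agent.H979N

open Matrix
open Pool.Agent.Results.MP_8bfff4_mp.ExactValue
open Pool.Agent.H780W

/-- `W ^ (n+1)` from `W ^ n` by one generic matrix, in the flat region -/
lemma step_eq {D : ℕ} {W : Submodule ℂ (Matrix (Fin D) (Fin D) ℂ)} {X : Matrix (Fin D) (Fin D) ℂ}
    (hX : X ∈ W) {n : ℕ} (h1 : fr (W ^ n) < fr (ln X * W ^ n ⊔ W ^ n * ln X))
    (h2 : fr (W ^ (n + 1)) ≤ fr (W ^ n) + 1) : W ^ (n + 1) ≤ ln X * W ^ n ⊔ W ^ n * ln X := by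
  have h3 : ln X * W ^ n ⊔ W ^ n * ln X ≤ W ^ (n + 1) := by
    apply sup_le
    · rw [pow_succ']; exact mul_le_mul' (ln_le.2 hX) le_rfl
    · rw [pow_succ]; exact mul_le_mul' le_rfl (ln_le.2 hX)
  exact (eq_of_le_of_fr_le h3 (by omega)).ge

variable {W : Submodule ℂ (Matrix (Fin 4) (Fin 4) ℂ)}

/-- no invariance of `range B` under `W ^ 2` -/
lemma not_stable_sq {N : ℕ} (hN : W ^ N = ⊤) {B : Matrix (Fin 4) (Fin 4) ℂ}
    (hB0 : B ≠ 0) (hBB : B * B = 0)
    (h : ∀ A ∈ W ^ 2, ∀ v : Fin 4 → ℂ, B *ᵥ v = 0 → B *ᵥ (A *ᵥ v) = 0) : False := by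
  have hp : Full (W ^ N) := full_of_top hN
  have htop : W ^ (2 * N) = ⊤ := top_le (by norm_num) hp (by omega) hN
  have hk : ∀ k, ∀ A ∈ W ^ (2 * k), ∀ v : Fin 4 → ℂ, B *ᵥ v = 0 → B *ᵥ (A *ᵥ v) = 0 := by
    intro k
    induction k with
    | zero =>
      intro A hA v hv
      rw [mul_zero, pow_zero, Submodule.mem_one] at hA
      obtain ⟨a, rfl⟩ := hA
      rw [Algebra.algebraMap_eq_smul_one, Matrix.smul_mulVec, Matrix.one_mulVec,
        Matrix.mulVec_smul, hv, smul_zero]
    | succ k ih =>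
      intro A hA v hv
      rw [show 2 * (k + 1) = 2 * k + 2 by ring, pow_add] at hA
      refine Submodule.mul_induction_on hA ?_ ?_
      · intro x hx y hy
        rw [← Matrix.mulVec_mulVec]
        exact ih x hx _ (h y hy v hv)
      · intro x y hx hy
        rw [Matrix.add_mulVec, Matrix.mulVec_add, hx, hy, add_zero]
  obtain ⟨w, hw⟩ : ∃ w : Fin 4 → ℂ, B *ᵥ w ≠ 0 := by
    by_contra hcon
    push Not at hcon
    apply hB0
    ext i j
    have := congrFun (hcon (Pi.single j 1)) i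
    rw [Matrix.mulVec_single_one] at this
    exact this
  obtain ⟨C, hC, hCv⟩ := full_of_top htop (B *ᵥ w) hw w
  apply hw
  rw [← hCv]
  apply hk N C hC
  rw [Matrix.mulVec_mulVec, hBB, Matrix.zero_mulVec]

/-- the main case analysis for `D = 4` -/
lemma four_square_zero {N : ℕ} (hN : W ^ N = ⊤) {X B : Matrix (Fin 4) (Fin 4) ℂ}
    (hX : X ∈ W) (hXu : IsUnit X) (hB : B ∈ W) (hB0 : B ≠ 0) (hBB : B * B = 0) (hfr1 : fr W ≤ 2)
    (hd : ∀ n, 1 ≤ n → n ≤ 3 → fr (W ^ (n + 1)) ≤ fr (W ^ n) + 1) (hfr4 : 5 ≤ fr (W ^ 4))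
    (hgen : ∀ n, 1 ≤ n → n ≤ 3 → fr (W ^ n) < fr (ln X * W ^ n ⊔ W ^ n * ln X))
    (hr1 : 2 ≤ B.rank)
    (htr : ∀ M ∈ W ^ (12 + 1), M.trace = 0) (hfr : 4 * 4 ≤ fr (W ^ (12 + 1)) + 1) : False := by
  classical
  have hBnu : ¬ IsUnit B := by
    intro h
    exact hB0 (h.mul_left_eq_zero.1 hBB)
  have hli : ∀ s t : ℂ, s • X + t • B = 0 → s = 0 ∧ t = 0 := by
    intro s t h
    have hs : s = 0 := by
      by_contra hs
      apply hBnu
      by_cases ht : t = 0
      · exfalso
        rw [ht, zero_smul, add_zero, smul_eq_zero] at h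
        rcases h with h | h
        · exact hs h
        · rw [h] at hXu
          exact not_isUnit_zero hXu
      · have : B = (-(s / t)) • X := by
          have e : B = t⁻¹ • (t • B) := by rw [smul_smul, inv_mul_cancel₀ ht, one_smul]
          rw [e, eq_neg_of_add_eq_zero_right h, smul_neg, smul_smul, neg_smul, div_eq_inv_mul]
        rw [this]
        have h3 : -(s / t) ≠ 0 := neg_ne_zero.2 (div_ne_zero hs ht)
        obtain ⟨u, hu⟩ := hXu
        rw [← hu]
        exact ((Units.mk0 _ h3) • u).isUnit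
    refine ⟨hs, ?_⟩
    rw [hs, zero_smul, zero_add, smul_eq_zero] at h
    exact h.resolve_right hB0
  have hWXB : W ≤ ln X ⊔ ln B := by
    have h1 : ln X ⊔ ln B ≤ W := sup_le (ln_le.2 hX) (ln_le.2 hB)
    have h2 : 2 ≤ fr (ln X ⊔ ln B) := by
      rw [← span_pair_eq]
      have hli2 : LinearIndependent ℂ ![X, B] := LinearIndependent.pair_iff.2 hli
      have h3 := finrank_span_eq_card hli2
      unfold fr
      rw [Matrix.range_cons, Matrix.range_cons, Matrix.range_empty, Set.union_empty,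
        Set.singleton_union] at h3
      rw [h3]
      simp
    exact (eq_of_le_of_fr_le h1 (by omega)).ge
  have s1 := step_eq hX (hgen 1 le_rfl (by norm_num)) (hd 1 le_rfl (by norm_num))
  have s2 := step_eq hX (hgen 2 (by norm_num) (by norm_num)) (hd 2 (by norm_num) (by norm_num))
  have s3 := step_eq hX (hgen 3 (by norm_num) (by norm_num)) (hd 3 (by norm_num) (by norm_num))
  simp only [Nat.reduceAdd] at s1 s2 s3
  rw [pow_one] at s1
  have hW2 : W ^ 2 ≤ ln (X * X) ⊔ ln (X * B) ⊔ ln (B * X) := by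
    refine s1.trans ?_
    refine (sup_le_sup (mul_le_mul' le_rfl hWXB) (mul_le_mul' hWXB le_rfl)).trans ?_
    simp only [Submodule.sup_mul, Submodule.mul_sup, ln_mul_ln, sup_le_iff]
    refine ⟨⟨?_, ?_⟩, ?_, ?_⟩
    · exact le_sup_of_le_left le_sup_left
    · exact le_sup_of_le_left le_sup_right
    · exact le_sup_of_le_left le_sup_left
    · exact le_sup_right
  have hW3 : W ^ 3 ≤ ln (X * X * X) ⊔ ln (X * X * B) ⊔ ln (X * B * X) ⊔ ln (B * X * X) := by
    refine s2.trans ?_
    refine (sup_le_sup (mul_le_mul' le_rfl hW2) (mul_le_mul' hW2 le_rfl)).trans ?_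
    simp only [Submodule.sup_mul, Submodule.mul_sup, ln_mul_ln, sup_le_iff, ← mul_assoc]
    refine ⟨⟨⟨?_, ?_⟩, ?_⟩, ⟨?_, ?_⟩, ?_⟩
    · exact le_sup_of_le_left (le_sup_of_le_left le_sup_left)
    · exact le_sup_of_le_left (le_sup_of_le_left le_sup_right)
    · exact le_sup_of_le_left le_sup_right
    · exact le_sup_of_le_left (le_sup_of_le_left le_sup_left)
    · exact le_sup_of_le_left le_sup_right
    · exact le_sup_right
  let v : Fin 5 → Matrix (Fin 4) (Fin 4) ℂ :=
    ![X * X * X * X, X * X * X * B, X * X * B * X, X * B * X * X, B * X * X * X]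
  have hW4 : W ^ 4 ≤ Submodule.span ℂ (Set.range v) := by
    have hm : ∀ i, ln (v i) ≤ Submodule.span ℂ (Set.range v) := fun i =>
      ln_le.2 (Submodule.subset_span ⟨i, rfl⟩)
    refine s3.trans ?_
    refine (sup_le_sup (mul_le_mul' le_rfl hW3) (mul_le_mul' hW3 le_rfl)).trans ?_
    simp only [Submodule.sup_mul, Submodule.mul_sup, ln_mul_ln, sup_le_iff, ← mul_assoc]
    refine ⟨⟨⟨⟨?_, ?_⟩, ?_⟩, ?_⟩, ⟨⟨?_, ?_⟩, ?_⟩, ?_⟩
    · exact hm 0
    · exact hm 1
    · exact hm 2
    · exact hm 3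
    · exact hm 0
    · exact hm 2
    · exact hm 3
    · exact hm 4
  have hvli : LinearIndependent ℂ v := by
    rw [linearIndependent_iff_card_eq_finrank_span]
    have h1 := fr_mono hW4
    have h2 : (Set.range v).finrank ℂ ≤ Fintype.card (Fin 5) := finrank_range_le_card v
    simp only [Fintype.card_fin] at h2 ⊢
    unfold fr at h1 hfr4
    unfold Set.finrank at h2 ⊢
    omega
  have hind : ∀ a b c d e : ℂ, a • (X * X * X * X) + b • (X * X * X * B) + c • (X * X * B * X) +
      d • (X * B * X * X) + e • (B * X * X * X) = 0 → a = 0 ∧ b = 0 ∧ c = 0 ∧ d = 0 ∧ e = 0 := by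
    intro a b c d e h
    have h1 := Fintype.linearIndependent_iff.1 hvli ![a, b, c, d, e] (by
      simp only [Fin.sum_univ_succ, v]
      simp [Fin.sum_univ_succ]
      rw [← h]
      abel)
    exact ⟨h1 0, h1 1, h1 2, h1 3, h1 4⟩
  obtain ⟨c0, c3, c2, c1, hrel⟩ : ∃ c0 c3 c2 c1 : ℂ, B * X * B = c0 • (X * X * X) +
      c3 • (X * X * B) + c2 • (X * B * X) + c1 • (B * X * X) := by
    have h1 : B * X * B ∈ W ^ 3 := by
      rw [show 3 = 1 + 1 + 1 by norm_num, pow_succ, pow_succ, pow_one]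
      exact Submodule.mul_mem_mul (Submodule.mul_mem_mul hB hX) hB
    obtain ⟨y1, hy1, z, hz, hyz⟩ := Submodule.mem_sup.1 (hW3 h1)
    obtain ⟨y2, hy2, z2, hz2, rfl⟩ := Submodule.mem_sup.1 hy1
    obtain ⟨y3, hy3, z3, hz3, rfl⟩ := Submodule.mem_sup.1 hy2
    obtain ⟨a, rfl⟩ := Submodule.mem_span_singleton.1 hy3
    obtain ⟨b, rfl⟩ := Submodule.mem_span_singleton.1 hz
    obtain ⟨c, rfl⟩ := Submodule.mem_span_singleton.1 hz2
    obtain ⟨d, rfl⟩ := Submodule.mem_span_singleton.1 hz3
    exact ⟨a, d, c, b, hyz.symm⟩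
  -- the two relations in degree four
  have r1 : c3 • (B * X * X * B) + (c0 + c1 * c2) • (B * X * X * X) + (c0 * c2) • (X * X * X * X) +
      (c2 * c3) • (X * X * B * X) + (c2 * c2) • (X * B * X * X) = 0 := by
    have e1 : B * (B * X * B) = 0 := by rw [← mul_assoc, ← mul_assoc, hBB, zero_mul, zero_mul]
    rw [hrel] at e1
    simp only [mul_add, mul_smul_comm, ← mul_assoc] at e1
    rw [hBB] at e1
    rw [hrel] at e1
    simp only [add_mul, smul_mul_assoc, zero_mul, smul_zero, add_zero] at e1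
    rw [← e1]
    module
  have r2 : c1 • (B * X * X * B) + (c0 + c2 * c3) • (X * X * X * B) + (c0 * c2) • (X * X * X * X) +
      (c2 * c2) • (X * X * B * X) + (c1 * c2) • (X * B * X * X) = 0 := by
    have e1 : (B * X * B) * B = 0 := by rw [mul_assoc, hBB, mul_zero]
    rw [hrel] at e1
    have e2 : X * B * X * B = X * (c0 • (X * X * X) +
      c3 • (X * X * B) + c2 • (X * B * X) + c1 • (B * X * X)) := by
      rw [← hrel]; simp only [mul_assoc]
    have e3 : X * X * B * B = 0 := by rw [mul_assoc, hBB, mul_zero]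
    simp only [add_mul, smul_mul_assoc] at e1
    rw [e2, e3] at e1
    simp only [mul_add, mul_smul_comm, ← mul_assoc, smul_zero, add_zero] at e1
    rw [← e1]
    module
  have r3 : (c0 * c2 * (c1 - c3)) • (X * X * X * X) + (-(c3 * (c0 + c2 * c3))) • (X * X * X * B) +
      (c2 * c3 * (c1 - c2)) • (X * X * B * X) + (c1 * c2 * (c2 - c3)) • (X * B * X * X) +
      (c1 * (c0 + c1 * c2)) • (B * X * X * X) = 0 := by
    have e : c1 • (c3 • (B * X * X * B) + (c0 + c1 * c2) • (B * X * X * X) +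
        (c0 * c2) • (X * X * X * X) +
      (c2 * c3) • (X * X * B * X) + (c2 * c2) • (X * B * X * X)) - c3 • (c1 • (B * X * X * B) +
      (c0 + c2 * c3) • (X * X * X * B) + (c0 * c2) • (X * X * X * X) +
      (c2 * c2) • (X * X * B * X) + (c1 * c2) • (X * B * X * X)) = 0 := by
      rw [r1, r2, smul_zero, smul_zero, sub_zero]
    rw [← e]
    module
  obtain ⟨E3, E2, E4, E5, E1⟩ := hind _ _ _ _ _ r3
  have hz3 : c3 = 0 → c0 = 0 ∧ c2 = 0 := by
    intro h
    have := hind (c0 * c2) 0 (c2 * c3) (c2 * c2) (c0 + c1 * c2) (by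
      rw [h, zero_smul, zero_add] at r1
      rw [h, ← r1]
      module)
    obtain ⟨-, -, -, h4, h5⟩ := this
    have h6 : c2 = 0 := mul_self_eq_zero.1 h4
    rw [h6, mul_zero, add_zero] at h5
    exact ⟨h5, h6⟩
  have hz1 : c1 = 0 → c0 = 0 ∧ c2 = 0 := by
    intro h
    have := hind (c0 * c2) (c0 + c2 * c3) (c2 * c2) (c1 * c2) 0 (by
      rw [h, zero_smul, zero_add] at r2
      rw [h, ← r2]
      module)
    obtain ⟨-, h4, h5, -, -⟩ := this
    have h6 : c2 = 0 := mul_self_eq_zero.1 h5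
    rw [h6, zero_mul, add_zero] at h4
    exact ⟨h4, h6⟩
  have hrB : B.rank ≤ 2 := by
    have := Matrix.rank_add_rank_le_card_of_mul_eq_zero hBB
    simp only [Fintype.card_fin] at this
    omega
  by_cases h2 : c2 = 0
  · -- no nilpotent partner: the range of `B` is stable under `W ^ 2`
    have h0 : c0 = 0 := by
      by_cases h3 : c3 = 0
      · exact (hz3 h3).1
      · rw [h2, zero_mul, add_zero, neg_eq_zero] at E2
        exact (mul_eq_zero.1 E2).resolve_left h3
    -- kernel of B is its range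
    have hker : ∀ x : Fin 4 → ℂ, B *ᵥ x = 0 → ∃ y, x = B *ᵥ y := by
      intro x hx
      have h3 : LinearMap.range B.mulVecLin ≤ LinearMap.ker B.mulVecLin := by
        rintro _ ⟨y, rfl⟩
        rw [LinearMap.mem_ker, Matrix.mulVecLin_apply, Matrix.mulVecLin_apply,
          Matrix.mulVec_mulVec, hBB, Matrix.zero_mulVec]
      have h4 := LinearMap.finrank_range_add_finrank_ker B.mulVecLin
      have h5 : Module.finrank ℂ (Fin 4 → ℂ) = 4 := by simp
      have h6 : 2 ≤ Module.finrank ℂ (LinearMap.range B.mulVecLin) := hr1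
      have h7 := Submodule.eq_of_le_of_finrank_le h3 (by omega)
      have h8 : x ∈ LinearMap.ker B.mulVecLin := hx
      rw [← h7] at h8
      obtain ⟨y, hy⟩ := h8
      exact ⟨y, hy.symm⟩
    have hF : B * X * X * B = 0 := by
      rw [h0, h2, zero_smul, zero_smul, zero_add, add_zero] at hrel
      by_cases h3 : c3 = 0
      · by_cases h1 : c1 = 0
        · rw [h3, h1, zero_smul, zero_smul, add_zero] at hrel
          have key : ∀ w, (B * X * X * B) *ᵥ w = 0 := by
            intro w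
            have h4 : B *ᵥ ((X * B) *ᵥ w) = 0 := by
              rw [Matrix.mulVec_mulVec, ← mul_assoc, hrel, Matrix.zero_mulVec]
            obtain ⟨y, hy⟩ := hker _ h4
            have h5 : (B * X * X * B) *ᵥ w = (B * X) *ᵥ ((X * B) *ᵥ w) := by
              rw [Matrix.mulVec_mulVec]; simp only [mul_assoc]
            rw [h5, hy, Matrix.mulVec_mulVec, hrel, Matrix.zero_mulVec]
          ext i j
          have := congrFun (key (Pi.single j 1)) i
          rw [Matrix.mulVec_single_one] at this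
          exact this
        · rw [h0, h2] at r2
          simp only [zero_mul, mul_zero, add_zero, zero_smul] at r2
          exact (smul_eq_zero.1 r2).resolve_left h1
      · rw [h0, h2] at r1
        simp only [zero_mul, mul_zero, add_zero, zero_smul] at r1
        exact (smul_eq_zero.1 r1).resolve_left h3
    apply not_stable_sq hN hB0 hBB
    intro A hA v hv
    obtain ⟨w, rfl⟩ := hker v hv
    obtain ⟨y1, hy1, z, hz, hyz⟩ := Submodule.mem_sup.1 (hW2 hA)
    obtain ⟨y2, hy2, z2, hz2, rfl⟩ := Submodule.mem_sup.1 hy1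
    obtain ⟨a, rfl⟩ := Submodule.mem_span_singleton.1 hy2
    obtain ⟨b, rfl⟩ := Submodule.mem_span_singleton.1 hz
    obtain ⟨c, rfl⟩ := Submodule.mem_span_singleton.1 hz2
    have e : B * A * B = 0 := by
      rw [← hyz]
      have e1 : B * (X * X) * B = 0 := by rw [← mul_assoc]; exact hF
      have e2 : B * (X * B) * B = 0 := by
        rw [mul_assoc, mul_assoc X B B, hBB, mul_zero, mul_zero]
      have e3 : B * (B * X) * B = 0 := by rw [← mul_assoc, hBB, zero_mul, zero_mul]
      simp only [mul_add, add_mul, mul_smul_comm, smul_mul_assoc, e1, e2, e3, smul_zero, add_zero]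
    rw [Matrix.mulVec_mulVec, Matrix.mulVec_mulVec, e, Matrix.zero_mulVec]
  · -- a nilpotent partner
    have hc3 : c3 ≠ 0 := fun h => h2 (hz3 h).2
    have hc1 : c1 ≠ 0 := fun h => h2 (hz1 h).2
    have h12 : c1 = c2 := by
      have := (mul_eq_zero.1 E4).resolve_left (mul_ne_zero h2 hc3)
      exact sub_eq_zero.1 this
    have h23 : c3 = c2 := by
      have := (mul_eq_zero.1 E5).resolve_left (mul_ne_zero hc1 h2)
      exact (sub_eq_zero.1 this).symm
    have h0 : c0 = -(c2 * c2) := by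
      have := (mul_eq_zero.1 E1).resolve_left hc1
      rw [h12] at this
      linear_combination this
    obtain ⟨N', hN'⟩ : ∃ N', N' = X - c2⁻¹ • B := ⟨_, rfl⟩
    have hcube : N' * N' * N' = 0 := by
      have e : N' * N' * N' = X * X * X - c2⁻¹ • (X * X * B) - c2⁻¹ • (X * B * X) -
          c2⁻¹ • (B * X * X) + (c2⁻¹ * c2⁻¹) • (B * X * B) +
          (c2⁻¹ * c2⁻¹) • (X * (B * B)) + (c2⁻¹ * c2⁻¹) • ((B * B) * X)
          - (c2⁻¹ * c2⁻¹ * c2⁻¹) • ((B * B) * B) := by
        rw [hN']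
        simp only [mul_sub, sub_mul, mul_smul_comm, smul_mul_assoc, ← mul_assoc]
        module
      rw [e, hBB, hrel, h0, h12, h23]
      simp only [mul_zero, zero_mul, smul_zero, add_zero, sub_zero, smul_add, smul_smul]
      match_scalars <;> field_simp <;> ring
    have hN'W : N' ∈ W := by rw [hN']; exact W.sub_mem hX (W.smul_mem _ hB)
    have hN'0 : N' ≠ 0 := by
      intro h
      rw [hN'] at h
      exact one_ne_zero (hli 1 (-c2⁻¹) (by rw [one_smul, neg_smul, ← sub_eq_add_neg]; exact h)).1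
    have h5 := rank_sum (K := 12) htr hfr hB hN'W hB0 hN'0 (by
      rw [span_pair_eq]
      refine hWXB.trans (sup_le ?_ le_sup_left)
      rw [ln_le]
      have : X = N' + c2⁻¹ • B := by rw [hN']; abel
      rw [this]
      exact Submodule.add_mem _ (Submodule.mem_sup_right (mem_ln_self _))
        (Submodule.mem_sup_left ((ln B).smul_mem _ (mem_ln_self _))))
    have h6 := rank_cube hcube
    omega

end Pool.Agent.H979N
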